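import Pool.Agent.H52.MY1

set_option autoImplicit false

namespace Pool.Agent.Results.MP_9ec85a_gt.NoDiscrete

/-- Congruence by an isometry of the whole space. -/
def Congr {n : ℕ} (A B : Set (EuclideanSpace ℝ (Fin n))) : Prop :=
  ∃ g : EuclideanSpace ℝ (Fin n) ≃ᵢ EuclideanSpace ℝ (Fin n), g '' A = B

/-- Weak Mycielski sets. -/
def WeakMyc {n : ℕ} (X : Set (EuclideanSpace ℝ (Fin n))) : Prop :=
  ∃ p ∈ X, ∃ q ∈ X, p ≠ q ∧ Congr (X \ {p}) X ∧ Congr (X \ {q}) X

/-- Every point is isolated. -/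
def Discrete {n : ℕ} (X : Set (EuclideanSpace ℝ (Fin n))) : Prop :=
  ∀ x ∈ X, ∃ ε > 0, ∀ y ∈ X, dist y x < ε → y = x

theorem result (n : ℕ) (X : Set (EuclideanSpace ℝ (Fin n))) (hX : WeakMyc X) : ¬ Discrete X := by
  obtain ⟨p, hp, q, hq, hpq, ⟨g, hg⟩, ⟨h, hh⟩⟩ := hX
  intro hd
  have k : ∀ (g : EuclideanSpace ℝ (Fin n) ≃ᵢ EuclideanSpace ℝ (Fin n)) A,
      g '' A = X → g.symm '' X = A := fun g A e => by
    rw [← e, Set.image_image]
    simp
  refine Pool.Agent.H52.MY.main (s := fun b => if b then g.symm else h.symm)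
    (m := fun b => if b then p else q) ?_ ?_ ?_ hd
  · rintro (_ | _)
    · exact k h _ hh
    · exact k g _ hg
  · rintro (_ | _)
    · exact hq
    · exact hp
  · rintro (_ | _) (_ | _) e
    · rfl
    · exact absurd e.symm hpq
    · exact absurd e hpq
    · rfl

end Pool.Agent.Results.MP_9ec85a_gt.NoDiscrete
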